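import Mathlib
import Pool.Agent.H8.APP.Hyers

/-!
# A function with small second differences at almost all triples is almost affine

`f` is a function on `{0, .., 16 L - 1}` with values in a normed space. If
`f (a + b - c) - f a - f b + f c` is at most `d` for all but `ε (16 L) ^ 3` of the triples, then on
some interval of length `L` the function is within `40 d` of an affine function, with at most
`512 ε (L + 1)` exceptions.
-/

set_option autoImplicit false

namespace Pool.DR18

open Finset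

variable {E : Type*} [NormedAddCommGroup E] [NormedSpace ℝ E]

/-- Pigeonhole for sums of counts. -/
theorem exists_small {α β : Type*} [DecidableEq α] [DecidableEq β] (A : Finset α) (B : Finset β)
    (hA : A.Nonempty) (P : α → β → Prop) [∀ a b, Decidable (P a b)] {t : ℝ}
    (h : (((A ×ˢ B).filter fun p => P p.1 p.2).card : ℝ) ≤ A.card * t) :
    ∃ a ∈ A, ((B.filter fun b => P a b).card : ℝ) ≤ t := by
  classical
  by_contra hc
  push Not at hc
  have h1 : (((A ×ˢ B).filter fun p => P p.1 p.2).card : ℝ) =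
      ∑ a ∈ A, ((B.filter fun b => P a b).card : ℝ) := by
    rw [← Nat.cast_sum]
    congr 1
    rw [Finset.card_filter, Finset.sum_product]
    refine Finset.sum_congr rfl fun a _ => ?_
    rw [Finset.card_filter]
  have h2 : ∑ a ∈ A, t < ∑ a ∈ A, ((B.filter fun b => P a b).card : ℝ) :=
    Finset.sum_lt_sum_of_nonempty hA fun a ha => hc a ha
  rw [Finset.sum_const, nsmul_eq_mul] at h2
  rw [h1] at h
  linarith

/-- **Additive at almost all pairs**: `g` on `{0, .., 4 L - 1}`, additive up to `d` at all but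
`η (2 L) ^ 2` of the pairs of `{0, .., 4 L - 1}`; then `g` is close to an affine function on an
interval of length `L`. -/
theorem aff_pairs (g : ℕ → E) (L : ℕ) (hL : 1 ≤ L) (d η : ℝ) (hη : 24 * η < 1)
    (hg : (((range (4 * L) ×ˢ range (4 * L)).filter fun p : ℕ × ℕ =>
      d < ‖g (p.1 + p.2) - g p.1 - g p.2‖).card : ℝ) ≤ η * (2 * L : ℕ) ^ 2) :
    ∃ (w : ℕ) (B : E), w < 2 * L ∧
      (((range (L + 1)).filter fun x => 40 * d < ‖g (w + x) - (g w + (x : ℝ) • B)‖).card : ℝ) ≤
        4 * η * (L + 1) * 2 := by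
  classical
  set K : ℕ := 2 * L with hK
  have hKp : 0 < K := by omega
  have hKr : (0 : ℝ) < (K : ℝ) := by exact_mod_cast hKp
  set Bd : Finset (ℕ × ℕ) := (range (4 * L) ×ˢ range (4 * L)).filter fun p : ℕ × ℕ =>
    d < ‖g (p.1 + p.2) - g p.1 - g p.2‖ with hBd
  have hmem : ∀ u v, u < 4 * L → v < 4 * L → (u, v) ∉ Bd → ‖g (u + v) - g u - g v‖ ≤ d := by
    intro u v hu hv h
    by_contra hc
    exact h (by
      rw [hBd, Finset.mem_filter, Finset.mem_product, Finset.mem_range, Finset.mem_range]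
      exact ⟨⟨hu, hv⟩, not_le.1 hc⟩)
  set φ : ℕ → ℕ → E := fun x s => g (x + s) - g s with hφ
  -- step 2
  have s2 : ∀ x, x ≤ K → (((range K ×ˢ range K).filter fun p : ℕ × ℕ =>
      2 * d < ‖φ x (p.1 + p.2) - φ x p.2‖).card : ℝ) ≤ 2 * η * (K : ℝ) ^ 2 := by
    intro x hx
    have hsub : ((range K ×ˢ range K).filter fun p : ℕ × ℕ =>
        2 * d < ‖φ x (p.1 + p.2) - φ x p.2‖) ⊆
        ((range K ×ˢ range K).filter fun p => p ∈ Bd) ∪
          ((range K ×ˢ range K).filter fun p => (p.1, x + p.2) ∈ Bd) := by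
      intro p hp
      rw [Finset.mem_filter, Finset.mem_product, Finset.mem_range, Finset.mem_range] at hp
      obtain ⟨⟨h1, h2⟩, h3⟩ := hp
      have hpp : p ∈ range K ×ˢ range K :=
        Finset.mem_product.2 ⟨Finset.mem_range.2 h1, Finset.mem_range.2 h2⟩
      by_contra hc
      have hc1 : p ∉ Bd := fun hb =>
        hc (Finset.mem_union.2 (Or.inl (Finset.mem_filter.2 ⟨hpp, hb⟩)))
      have hc2 : (p.1, x + p.2) ∉ Bd := fun hb =>
        hc (Finset.mem_union.2 (Or.inr (Finset.mem_filter.2 ⟨hpp, hb⟩)))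
      have e1 := hmem p.1 p.2 (by omega) (by omega) hc1
      have e2 := hmem p.1 (x + p.2) (by omega) (by omega) hc2
      have e3 : φ x (p.1 + p.2) - φ x p.2 =
          (g (p.1 + (x + p.2)) - g p.1 - g (x + p.2)) - (g (p.1 + p.2) - g p.1 - g p.2) := by
        simp only [hφ]
        have : x + (p.1 + p.2) = p.1 + (x + p.2) := by omega
        rw [this]
        abel
      have e4 : ‖φ x (p.1 + p.2) - φ x p.2‖ ≤ 2 * d := by
        rw [e3]
        refine (norm_sub_le _ _).trans ?_
        linarith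
      linarith
    have c1 : ((range K ×ˢ range K).filter fun p => p ∈ Bd).card ≤ Bd.card :=
      Finset.card_le_card fun p hp => (Finset.mem_filter.1 hp).2
    have c2 : ((range K ×ˢ range K).filter fun p => (p.1, x + p.2) ∈ Bd).card ≤ Bd.card := by
      refine Finset.card_le_card_of_injOn (fun p => (p.1, x + p.2))
        (fun p hp => (Finset.mem_filter.1 (Finset.mem_coe.1 hp)).2) ?_
      rintro ⟨a, b⟩ _ ⟨a', b'⟩ _ h
      simp only [Prod.mk.injEq] at h ⊢
      exact ⟨h.1, by omega⟩
    have c3 := Finset.card_le_card hsub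
    have c4 := Finset.card_union_le ((range K ×ˢ range K).filter fun p => p ∈ Bd)
      ((range K ×ˢ range K).filter fun p => (p.1, x + p.2) ∈ Bd)
    have c5 : (((range K ×ˢ range K).filter fun p : ℕ × ℕ =>
        2 * d < ‖φ x (p.1 + p.2) - φ x p.2‖).card : ℝ) ≤ 2 * (Bd.card : ℝ) := by
      exact_mod_cast (by omega)
    calc _ ≤ 2 * (Bd.card : ℝ) := c5
      _ ≤ 2 * (η * ((2 * L : ℕ) : ℝ) ^ 2) := by
          exact mul_le_mul_of_nonneg_left hg (by norm_num)
      _ = 2 * η * (K : ℝ) ^ 2 := by rw [hK]; ring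
  have s3 : ∀ x, x ≤ K → (((range K ×ˢ range K).filter fun p : ℕ × ℕ =>
      4 * d < ‖φ x p.2 - φ x p.1‖).card : ℝ) ≤ 4 * η * (K : ℝ) ^ 2 := by
    intro x hx
    have hsub : ((range K ×ˢ range K).filter fun p : ℕ × ℕ => 4 * d < ‖φ x p.2 - φ x p.1‖) ⊆
        ((range K ×ˢ range K).filter fun p : ℕ × ℕ => 2 * d < ‖φ x (p.1 + p.2) - φ x p.2‖) ∪
          ((range K ×ˢ range K).filter fun p : ℕ × ℕ =>
            2 * d < ‖φ x (p.2 + p.1) - φ x p.1‖) := by
      intro p hp
      rw [Finset.mem_filter] at hp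
      rw [Finset.mem_union, Finset.mem_filter, Finset.mem_filter]
      by_contra hc
      push Not at hc
      have e1 := hc.1 hp.1
      have e2 := hc.2 hp.1
      have e3 : φ x p.2 - φ x p.1 =
          (φ x (p.2 + p.1) - φ x p.1) - (φ x (p.1 + p.2) - φ x p.2) := by
        rw [add_comm p.2 p.1]
        abel
      have e4 : ‖φ x p.2 - φ x p.1‖ ≤ 4 * d := by
        rw [e3]
        refine (norm_sub_le _ _).trans ?_
        linarith
      linarith [hp.2]
    have c2 : ((range K ×ˢ range K).filter fun p : ℕ × ℕ =>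
        2 * d < ‖φ x (p.2 + p.1) - φ x p.1‖).card ≤
        ((range K ×ˢ range K).filter fun p : ℕ × ℕ =>
          2 * d < ‖φ x (p.1 + p.2) - φ x p.2‖).card := by
      refine Finset.card_le_card_of_injOn (fun p => (p.2, p.1)) ?_ ?_
      · intro p hp
        rw [Finset.mem_coe, Finset.mem_filter, Finset.mem_product] at hp ⊢
        exact ⟨⟨hp.1.2, hp.1.1⟩, hp.2⟩
      · rintro ⟨a, b⟩ _ ⟨a', b'⟩ _ h
        simp only [Prod.mk.injEq] at h ⊢
        exact ⟨h.2, h.1⟩
    have c3 := Finset.card_le_card hsub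
    have c4 := Finset.card_union_le
      ((range K ×ˢ range K).filter fun p : ℕ × ℕ => 2 * d < ‖φ x (p.1 + p.2) - φ x p.2‖)
      ((range K ×ˢ range K).filter fun p : ℕ × ℕ => 2 * d < ‖φ x (p.2 + p.1) - φ x p.1‖)
    have c5 : (((range K ×ˢ range K).filter fun p : ℕ × ℕ =>
        4 * d < ‖φ x p.2 - φ x p.1‖).card : ℝ) ≤
        2 * (((range K ×ˢ range K).filter fun p : ℕ × ℕ =>
          2 * d < ‖φ x (p.1 + p.2) - φ x p.2‖).card : ℝ) := by
      exact_mod_cast (by omega)
    have c6 := s2 x hx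
    linarith
  -- the value
  have s4 : ∀ x, ∃ v : E, x ≤ K →
      (((range K).filter fun w => 4 * d < ‖φ x w - v‖).card : ℝ) ≤ 4 * η * K := by
    intro x
    by_cases hx : x ≤ K
    · have h := s3 x hx
      obtain ⟨s, _, hs⟩ := exists_small (range K) (range K) (Finset.nonempty_range_iff.2 hKp.ne')
        (fun a b => 4 * d < ‖φ x b - φ x a‖) (t := 4 * η * K) (by
          refine h.trans (le_of_eq ?_)
          rw [Finset.card_range]
          ring)
      exact ⟨φ x s, fun _ => hs⟩
    · exact ⟨0, fun h => absurd h hx⟩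
  choose h hh using s4
  -- step 3
  have s5 : ∀ x y : ℕ, x + y ≤ L → ‖h (x + y) - h x - h y‖ ≤ 12 * d := by
    intro x y hxy
    have b1 := hh (x + y) (by omega)
    have b2 := hh x (by omega)
    have b3 := hh y (by omega)
    set F1 := (range K).filter fun w => 4 * d < ‖φ (x + y) w - h (x + y)‖ with hF1
    set F2 := (range K).filter fun w => 4 * d < ‖φ x w - h x‖ with hF2
    set F3 := (range K).filter fun w => 4 * d < ‖φ y w - h y‖ with hF3
    have hex : ∃ w, w < L ∧ w ∉ F1 ∧ w ∉ F2 ∧ x + w ∉ F3 := by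
      by_contra hc
      push Not at hc
      have hsub : range L ⊆ (F1 ∪ F2) ∪ ((range L).filter fun w => x + w ∈ F3) := by
        intro w hw
        by_cases h1 : w ∈ F1
        · exact Finset.mem_union.2 (Or.inl (Finset.mem_union.2 (Or.inl h1)))
        · by_cases h2 : w ∈ F2
          · exact Finset.mem_union.2 (Or.inl (Finset.mem_union.2 (Or.inr h2)))
          · exact Finset.mem_union.2 (Or.inr (Finset.mem_filter.2
              ⟨hw, hc w (Finset.mem_range.1 hw) h1 h2⟩))
      have c1 := Finset.card_le_card hsub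
      have c2 := Finset.card_union_le (F1 ∪ F2) ((range L).filter fun w => x + w ∈ F3)
      have c3 := Finset.card_union_le F1 F2
      have c4 : ((range L).filter fun w => x + w ∈ F3).card ≤ F3.card := by
        refine Finset.card_le_card_of_injOn (fun w => x + w)
          (fun p hp => (Finset.mem_filter.1 (Finset.mem_coe.1 hp)).2) ?_
        intro a _ b _ hab
        simp only at hab
        omega
      rw [Finset.card_range] at c1
      have c5 : (L : ℝ) ≤ F1.card + F2.card + F3.card := by exact_mod_cast (by omega)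
      have hLr : (1 : ℝ) ≤ (L : ℝ) := by exact_mod_cast hL
      have hKL : (K : ℝ) = 2 * (L : ℝ) := by rw [hK]; push_cast; ring
      rw [hKL] at b1 b2 b3
      have c6 : (F1.card : ℝ) ≤ 4 * η * (2 * L) := b1
      have c7 : (F2.card : ℝ) ≤ 4 * η * (2 * L) := b2
      have c8 : (F3.card : ℝ) ≤ 4 * η * (2 * L) := b3
      have c9 : (L : ℝ) ≤ 24 * η * L := by linarith
      nlinarith
    obtain ⟨w, hw, h1, h2, h3⟩ := hex
    have g1 : ‖φ (x + y) w - h (x + y)‖ ≤ 4 * d := by
      by_contra hc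
      exact h1 (Finset.mem_filter.2 ⟨Finset.mem_range.2 (by omega), not_le.1 hc⟩)
    have g2 : ‖φ x w - h x‖ ≤ 4 * d := by
      by_contra hc
      exact h2 (Finset.mem_filter.2 ⟨Finset.mem_range.2 (by omega), not_le.1 hc⟩)
    have g3 : ‖φ y (x + w) - h y‖ ≤ 4 * d := by
      by_contra hc
      exact h3 (Finset.mem_filter.2 ⟨Finset.mem_range.2 (by omega), not_le.1 hc⟩)
    have g4 : φ (x + y) w = φ y (x + w) + φ x w := by
      simp only [hφ]
      have : x + y + w = y + (x + w) := by omega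
      rw [this]
      abel
    have g5 : h (x + y) - h x - h y =
        (φ x w - h x) + (φ y (x + w) - h y) - (φ (x + y) w - h (x + y)) := by
      rw [g4]
      abel
    rw [g5]
    calc _ ≤ ‖(φ x w - h x) + (φ y (x + w) - h y)‖ + ‖φ (x + y) w - h (x + y)‖ := norm_sub_le _ _
      _ ≤ ‖φ x w - h x‖ + ‖φ y (x + w) - h y‖ + ‖φ (x + y) w - h (x + y)‖ := by
          gcongr
          exact norm_add_le _ _
      _ ≤ 12 * d := by linarith
  -- step 4
  have s6 := fun x (hx : x ≤ L) => Pool.APP.hyers h L hL (12 * d) s5 x hx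
  -- step 5
  have s7 : (((range K ×ˢ range (L + 1)).filter fun p : ℕ × ℕ =>
      4 * d < ‖φ p.2 p.1 - h p.2‖).card : ℝ) ≤ (range K).card * (4 * η * (L + 1)) := by
    have e : (((range K ×ˢ range (L + 1)).filter fun p : ℕ × ℕ =>
        4 * d < ‖φ p.2 p.1 - h p.2‖).card : ℝ) =
        ∑ x ∈ range (L + 1), (((range K).filter fun w => 4 * d < ‖φ x w - h x‖).card : ℝ) := by
      rw [← Nat.cast_sum]
      congr 1
      rw [Finset.card_filter, Finset.sum_product_right]
      refine Finset.sum_congr rfl fun a _ => ?_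
      rw [Finset.card_filter]
    rw [e]
    calc _ ≤ ∑ x ∈ range (L + 1), 4 * η * (K : ℝ) :=
          Finset.sum_le_sum fun x hx => hh x (by
            have := Finset.mem_range.1 hx
            omega)
      _ = _ := by
          rw [Finset.sum_const, Finset.card_range, Finset.card_range, nsmul_eq_mul]
          push_cast
          ring
  obtain ⟨w, hw, hw2⟩ := exists_small (range K) (range (L + 1))
    (Finset.nonempty_range_iff.2 hKp.ne') (fun a b => 4 * d < ‖φ b a - h b‖) s7
  have hη0 : 0 ≤ η := by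
    have h1 : (0 : ℝ) ≤ η * ((2 * L : ℕ) : ℝ) ^ 2 := le_trans (Nat.cast_nonneg _) hg
    have h2 : (0 : ℝ) < ((2 * L : ℕ) : ℝ) ^ 2 := by positivity
    by_contra hc
    push Not at hc
    nlinarith
  refine ⟨w, (1 / (L : ℝ)) • h L, by
    have := Finset.mem_range.1 hw
    omega, ?_⟩
  have hsub : ((range (L + 1)).filter fun x =>
      40 * d < ‖g (w + x) - (g w + (x : ℝ) • ((1 / (L : ℝ)) • h L))‖) ⊆
      ((range (L + 1)).filter fun b => 4 * d < ‖φ b w - h b‖) := by
    intro x hx
    rw [Finset.mem_filter] at hx ⊢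
    refine ⟨hx.1, ?_⟩
    by_contra hc
    push Not at hc
    have hxL : x ≤ L := by
      have := Finset.mem_range.1 hx.1
      omega
    have e1 := s6 x hxL
    have e2 : g (w + x) - (g w + (x : ℝ) • ((1 / (L : ℝ)) • h L)) =
        (φ x w - h x) + (h x - ((x : ℝ) / (L : ℝ)) • h L) := by
      simp only [hφ]
      rw [smul_smul, mul_one_div, add_comm w x]
      abel
    have e3 : ‖g (w + x) - (g w + (x : ℝ) • ((1 / (L : ℝ)) • h L))‖ ≤ 40 * d := by
      rw [e2]
      refine (norm_add_le _ _).trans ?_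
      linarith
    linarith [hx.2]
  have c1 : (((range (L + 1)).filter fun x =>
      40 * d < ‖g (w + x) - (g w + (x : ℝ) • ((1 / (L : ℝ)) • h L))‖).card : ℝ) ≤
      4 * η * (L + 1) := le_trans (by exact_mod_cast Finset.card_le_card hsub) hw2
  have c2 : 0 ≤ 4 * η * ((L : ℝ) + 1) := by positivity
  linarith

/-- **Small second differences at almost all triples**: the function is almost affine on an
interval. -/
theorem aff_triples (f : ℕ → E) (L : ℕ) (hL : 1 ≤ L) (d ε : ℝ) (hε : 3072 * ε < 1)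
    (hf : (((range (16 * L) ×ˢ range (16 * L) ×ˢ range (16 * L)).filter fun p : ℕ × ℕ × ℕ =>
      p.1 ≤ p.2.1 + p.2.2 ∧ p.2.1 + p.2.2 - p.1 < 16 * L ∧
        d < ‖f (p.2.1 + p.2.2 - p.1) - f p.2.1 - f p.2.2 + f p.1‖).card : ℝ) ≤
      ε * (16 * L : ℕ) ^ 3) :
    ∃ (c : ℕ) (B : E), c + L < 16 * L ∧
      (((range (L + 1)).filter fun x => 40 * d < ‖f (c + x) - (f c + (x : ℝ) • B)‖).card : ℝ) ≤
        1024 * ε * (L + 1) := by
  classical
  have hLr : (1 : ℝ) ≤ (L : ℝ) := by exact_mod_cast hL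
  have h1 : (((range (8 * L) ×ˢ (range (4 * L) ×ˢ range (4 * L))).filter fun p : ℕ × ℕ × ℕ =>
      d < ‖f (p.1 + (p.2.1 + p.2.2)) - f (p.1 + p.2.1) - f (p.1 + p.2.2) + f p.1‖).card : ℝ) ≤
      (range (8 * L)).card * (128 * ε * ((2 * L : ℕ) : ℝ) ^ 2) := by
    refine le_trans (b := (((range (16 * L) ×ˢ range (16 * L) ×ˢ range (16 * L)).filter
      fun p : ℕ × ℕ × ℕ => p.1 ≤ p.2.1 + p.2.2 ∧ p.2.1 + p.2.2 - p.1 < 16 * L ∧
        d < ‖f (p.2.1 + p.2.2 - p.1) - f p.2.1 - f p.2.2 + f p.1‖).card : ℝ)) ?_ ?_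
    · norm_cast
      refine Finset.card_le_card_of_injOn (fun p => (p.1, p.1 + p.2.1, p.1 + p.2.2)) ?_ ?_
      · rintro ⟨c, u, v⟩ hp
        simp only [Finset.coe_filter, Finset.mem_product, Finset.mem_range,
          Set.mem_ofPred_eq] at hp ⊢
        obtain ⟨⟨h1, h2, h3⟩, h4⟩ := hp
        have e : c + u + (c + v) - c = c + (u + v) := by omega
        rw [e]
        exact ⟨⟨by omega, by omega, by omega⟩, by omega, by omega, h4⟩
      · rintro ⟨c, u, v⟩ _ ⟨c', u', v'⟩ _ h
        simp only [Prod.mk.injEq] at h ⊢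
        omega
    · refine hf.trans (le_of_eq ?_)
      rw [Finset.card_range]
      push_cast
      ring
  obtain ⟨c, hc, hc2⟩ := exists_small (range (8 * L)) (range (4 * L) ×ˢ range (4 * L))
    (Finset.nonempty_range_iff.2 (by omega))
    (fun a b => d < ‖f (a + (b.1 + b.2)) - f (a + b.1) - f (a + b.2) + f a‖) h1
  rw [Finset.mem_range] at hc
  obtain ⟨w, B, hw, hB⟩ := aff_pairs (fun u => f (c + u) - f c) L hL d (128 * ε) (by linarith) (by
    refine le_trans (le_of_eq ?_) hc2
    congr 2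
    refine Finset.filter_congr fun p _ => ?_
    have : f (c + (p.1 + p.2)) - f c - (f (c + p.1) - f c) - (f (c + p.2) - f c) =
        f (c + (p.1 + p.2)) - f (c + p.1) - f (c + p.2) + f c := by abel
    rw [this])
  refine ⟨c + w, B, by omega, ?_⟩
  refine le_trans (le_of_eq ?_) (hB.trans (le_of_eq (by ring)))
  congr 2
  refine Finset.filter_congr fun x _ => ?_
  have : f (c + (w + x)) - f c - (f (c + w) - f c + (x : ℝ) • B) =
      f (c + w + x) - (f (c + w) + (x : ℝ) • B) := by
    rw [add_assoc c w x]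
    abel
  rw [this]

end Pool.DR18
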